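import Pool.Agent.Helper10.GO.GoalsT

set_option autoImplicit false

noncomputable section

namespace Pool.Agent.Helper61.GO

open Pool.Agent.Helper10.GO Pool.Agent.Helper80.HD Pool.Agent.Helper80.AD

theorem xall (hEXU : S_EXU) (hAPX : Pool.Agent.Helper80.AD.S_APX)
    (hEXA : Pool.Agent.Helper80.AD.S_EXA) : S_XALL := by
  intro K _ _ _ F k M hne hFG htr
  have hgood : GoodGam K (fun _ => (1 : ℝ)) := by
    refine ⟨fun _ => le_rfl, fun _ _ => rfl, ?_⟩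
    simp
  obtain ⟨sq, D, hA, hD⟩ := hAPX K F k M (fun _ => (1 : ℝ)) 0 hFG htr hgood le_rfl
  obtain ⟨E, C, hE⟩ := hEXA k _ _ _ _ _ _ _ _ _ hA
  refine ⟨E, D, hD, ?_⟩
  intro Γc Γ' hG hG'
  obtain ⟨sq', D', hA', hD'⟩ := hAPX K F k M Γc Γ' hFG htr hG hG'
  obtain ⟨E', C', hE'⟩ := hEXA k _ _ _ _ _ _ _ _ _ hA'
  obtain ⟨y₀⟩ := hne
  have hDD : D' = D := by
    funext Z
    have h1 := hD (Fin.cons y₀ Z : Fin (k + 1) → BV F M) 0
    have h2 := hD' (Fin.cons y₀ Z : Fin (k + 1) → BV F M) 0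
    have h3 : (fun s : Fin k => (Fin.cons y₀ Z : Fin (k + 1) → BV F M) ((0 : Fin (k + 1)).succAbove s)) = Z := by
      funext s
      simp
    rw [h3] at h1 h2
    rw [← h1, ← h2]
  subst hDD
  have hEE := hEXU k _ _ _ _ _ _ sq _ _ _ _ E E' C C' hA.sqh hE hE'
  exact ⟨C', by rw [hEE]; exact hE'⟩

end Pool.Agent.Helper61.GO
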